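import Mathlib

/-!
# Honeycomb clusters: definitions

The plane is `ℂ`.  `Per` is the perimeter of De Giorgi, `p N` the least perimeter of `N`-clusters of
regions with the area of the regular hexagon with side length `1`.
-/

namespace Pool.Agent.Helper79.HC

open MeasureTheory Set

noncomputable section

/-! ### Statement level -/

/-- The area of a regular hexagon with side length `1`. -/
def A0 : ℝ := 3 * Real.sqrt 3 / 2

/-- The divergence of a vector field on the plane. -/
def dvg (φ : ℂ → ℂ) (z : ℂ) : ℝ := (fderiv ℝ φ z 1).re + (fderiv ℝ φ z Complex.I).im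

/-- Test fields: continuously differentiable, with compact support, of length at most one. -/
structure IsTest (φ : ℂ → ℂ) : Prop where
  smooth : ContDiff ℝ 1 φ
  supp : HasCompactSupport φ
  bound : ∀ z, ‖φ z‖ ≤ 1

/-- The perimeter (De Giorgi) of a measurable set in the plane: the supremum of the integrals over
`E` of the divergence of the test fields. -/
def Per (E : Set ℂ) : ENNReal :=
  ⨆ (φ : ℂ → ℂ) (_ : IsTest φ), ENNReal.ofReal (∫ z in E, dvg φ z)

/-- An `N`-cluster: pairwise disjoint sets of finite perimeter with area `A0`. -/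
structure IsCluster {N : ℕ} (R : Fin N → Set ℂ) : Prop where
  measurable : ∀ i, MeasurableSet (R i)
  disjoint : ∀ i j, i ≠ j → Disjoint (R i) (R j)
  area : ∀ i, volume (R i) = ENNReal.ofReal A0
  finite : ∀ i, Per (R i) < ⊤

/-- The perimeter of a cluster: half of the sum of the perimeters of the regions and of the exterior
region. -/
def clusterPer {N : ℕ} (R : Fin N → Set ℂ) : ENNReal :=
  (Per (⋃ i, R i)ᶜ + ∑ i, Per (R i)) / 2

/-- The least perimeter of an `N`-cluster. -/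
def p (N : ℕ) : ENNReal := ⨅ (R : Fin N → Set ℂ) (_ : IsCluster R), clusterPer R

/-! ### Curves, fluxes, cones -/

/-- cross product -/
def cr (a b : ℂ) : ℝ := a.re * b.im - a.im * b.re

/-- midpoint -/
def mid (a b : ℂ) : ℂ := (a + b) / 2

/-- quadratic Bezier curve from `a` to `b` with control point `m` -/
def bez (a m b : ℂ) (t : ℝ) : ℂ :=
  ((1 - t) ^ 2 : ℝ) • a + (2 * t * (1 - t) : ℝ) • m + (t ^ 2 : ℝ) • b

/-- its derivative -/
def dbez (a m b : ℂ) (t : ℝ) : ℂ := (2 * (1 - t) : ℝ) • (m - a) + (2 * t : ℝ) • (b - m)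

/-- the flux of `φ` through the curve (towards its right side) -/
def fl (φ : ℂ → ℂ) (a m b : ℂ) : ℝ := ∫ t in (0 : ℝ)..1, cr (φ (bez a m b t)) (dbez a m b t)

/-- the length of the curve -/
def len (a m b : ℂ) : ℝ := ∫ t in (0 : ℝ)..1, ‖dbez a m b t‖

/-- the open cone with apex `o` over the curve -/
def cone (o a m b : ℂ) : Set ℂ :=
  {z | ∃ s ∈ Ioo (0 : ℝ) 1, ∃ t ∈ Ioo (0 : ℝ) 1, z = o + (s : ℝ) • (bez a m b t - o)}

/-! ### Cells -/

/-- A cell (relative to its centre): six vertices in counterclockwise order, and the bulges of the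
six sides (the displacement of the control point from the midpoint). -/
structure Cell where
  v : Fin 6 → ℂ
  b : Fin 6 → ℂ

/-- the control point of side `k` -/
def Cell.m (C : Cell) (k : Fin 6) : ℂ := mid (C.v k) (C.v (k + 1)) + C.b k

/-- the length of side `k` -/
def Cell.plen (C : Cell) (k : Fin 6) : ℝ := len (C.v k) (C.m k) (C.v (k + 1))

/-- three linear functionals (projections to the directions `0`, `60`, `120` degrees) -/
def fn3 (j : Fin 3) (z : ℂ) : ℝ :=
  match j with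
  | 0 => z.re
  | 1 => z.re / 2 + Real.sqrt 3 / 2 * z.im
  | 2 => - z.re / 2 + Real.sqrt 3 / 2 * z.im

/-- The conditions on a cell. -/
structure Good (C : Cell) : Prop where
  piece : ∀ k, (C.v k = C.v (k + 1) ∧ C.b k = 0) ∨
    (0 < cr (C.v k) (C.m k) ∧ 0 < cr (C.m k) (C.v (k + 1)) ∧ 0 < cr (C.v k) (C.v (k + 1)))
  wedge : ∀ k l, k ≠ l → ∀ z, ¬ (0 < cr (C.v k) z ∧ 0 < cr z (C.v (k + 1)) ∧
    0 < cr (C.v l) z ∧ 0 < cr z (C.v (l + 1)))
  area : ∑ k, (cr (C.v k) (C.m k) / 3 + cr (C.v k) (C.v (k + 1)) / 6 +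
    cr (C.m k) (C.v (k + 1)) / 3) = A0
  half : ∀ k, C.b k = 0 → ∀ l, 0 ≤ cr (C.v (k + 1) - C.v k) (C.v l - C.v k) ∧
    0 ≤ cr (C.v (k + 1) - C.v k) (C.m l - C.v k)
  norm : ∀ l j, |fn3 j (C.v l)| < 3 * Real.sqrt 3 / 4 ∧ |fn3 j (C.m l)| < 3 * Real.sqrt 3 / 4

/-- the region of the cell with centre `o` -/
def Cell.region (C : Cell) (o : ℂ) : Set ℂ :=
  ⋃ (k : Fin 6) (_ : C.v k ≠ C.v (k + 1)), cone o (o + C.v k) (o + C.m k) (o + C.v (k + 1))

/-- the rotation by 60 degrees -/
def ζ : ℂ := ⟨1 / 2, Real.sqrt 3 / 2⟩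

/-- the rotated cell -/
def Cell.rot (C : Cell) (r : Fin 6) : Cell where
  v k := ζ ^ (r : ℕ) * C.v (k - r)
  b k := ζ ^ (r : ℕ) * C.b (k - r)

/-! ### The lattice -/

/-- a point in scaled coordinates -/
def pt (x y : ℝ) : ℂ := ⟨Real.sqrt 3 / 2 * x, y / 2⟩

/-- the centre of the cell with index `c` -/
def pos (c : ℤ × ℤ) : ℂ := pt (2 * c.1 + c.2) (3 * c.2)

/-- the six neighbours -/
def dl : Fin 6 → ℤ × ℤ := ![(1, 0), (0, 1), (-1, 1), (-1, 0), (0, -1), (1, -1)]

/-- The side `k` of the cell `C` at `0` coincides with the side `k + 3` of the cell `C'` at the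
neighbour `dl k`, and both are straight. -/
def Match (C C' : Cell) (k : Fin 6) : Prop :=
  C.b k = 0 ∧ C'.b (k + 3) = 0 ∧ C.v k ≠ C.v (k + 1) ∧
    C.v k = pos (dl k) + C'.v (k + 4) ∧ C.v (k + 1) = pos (dl k) + C'.v (k + 3)

/-! ### The six types of cells -/

/-- The types: `0`, `1`, `2`, `3` are the cells in the layers near an armchair side, `4` is the cell
at a zigzag side, `5` is the regular hexagon. -/
def proto : Fin 6 → Cell :=
  ![⟨![pt (1/4) (-17/8), pt (1/4) (17/8), pt (1/4) (17/8), pt (-357/319) (6/5),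
        pt (-357/319) (-6/5), pt (1/4) (-17/8)],
      ![pt (221667/216920) 0, 0, 0, 0, 0, 0]⟩,
    ⟨![pt (5/4) (-7/8), pt (5/4) (7/8), pt (-38/319) (9/5), pt (-28/29) (9/10),
        pt (-28/29) (-9/10), pt (-38/319) (-9/5)],
      ![pt (8013/89320) 0, 0, 0, 0, 0, 0]⟩,
    ⟨![pt (281/319) (-6/5), pt (281/319) (6/5), pt (1/29) (21/10), pt (-1) 1, pt (-1) (-1),
        pt (1/29) (-21/10)],
      ![0, 0, 0, 0, 0, 0]⟩,
    ⟨![pt (30/29) (-9/10), pt (30/29) (9/10), pt 0 2, pt (-1) 1, pt (-1) (-1), pt 0 (-2)],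
      ![0, 0, 0, 0, 0, 0]⟩,
    ⟨![pt (35/32) (29/32), pt (35/32) (29/32), pt 0 2, pt (-1) 1, pt (-1) (-1),
        pt (3/32) (-67/32)],
      ![0, 0, 0, 0, 0, pt (15/32) (-15/32)]⟩,
    ⟨![pt 1 (-1), pt 1 1, pt 0 2, pt (-1) 1, pt (-1) (-1), pt 0 (-2)],
      ![0, 0, 0, 0, 0, 0]⟩]

/-! ### The big cluster -/

/-- the distances to the six sides of the big hexagon -/
def w (A : ℤ) (k : Fin 6) (c : ℤ × ℤ) : ℤ :=
  match k with
  | 0 => A - c.1
  | 1 => A - c.1 - c.2
  | 2 => A - c.2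
  | 3 => A + c.1
  | 4 => A + c.1 + c.2
  | 5 => A + c.2

/-- the indices of the cells: the big hexagon with side `A` with truncated corners, and without a
few cells near the ends of the sides -/
def InK (A D : ℤ) (c : ℤ × ℤ) : Prop :=
  ∀ k : Fin 6, 0 ≤ w A k c ∧ D - 2 ≤ w A k c + w A (k + 1) c ∧
    ¬ (w A k c + w A (k + 1) c ≤ D + 2 ∧ (w A k c ≤ 1 ∨ w A (k + 1) c ≤ 1))

open Classical in
/-- type and rotation of the cell with index `c` -/
def ty (A D : ℤ) (c : ℤ × ℤ) : Fin 6 × Fin 6 :=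
  if h : ∃ k : Fin 6, w A k c + w A (k + 1) c ≤ D + 1 then
    (if w A h.choose c + w A (h.choose + 1) c = D - 2 then 0
      else if w A h.choose c + w A (h.choose + 1) c = D - 1 then 1
      else if w A h.choose c + w A (h.choose + 1) c = D then 2
      else 3, h.choose)
  else if h : ∃ k : Fin 6, w A k c = 0 then (4, h.choose)
  else (5, 0)

open Classical in
/-- the cell with index `c` -/
def cellAt (A D : ℤ) (c : ℤ × ℤ) : Cell :=
  if InK A D c then (proto (ty A D c).1).rot (ty A D c).2 else proto 5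

open Classical in
/-- the index set of the big cluster -/
def bigK (A D : ℤ) : Finset (ℤ × ℤ) :=
  (Finset.Icc (-A) A ×ˢ Finset.Icc (-A) A).filter (InK A D)

/-- the cells near the ends of the sides -/
def Near (A D : ℤ) (c : ℤ × ℤ) : Prop :=
  ∃ k : Fin 6, w A k c + w A (k + 1) c ≤ D + 4 ∧ (w A k c ≤ 3 ∨ w A (k + 1) c ≤ 3)

/-- the side of the prototypes which may be exterior (and has positive length) -/
def sp : Fin 6 → Fin 6 := ![0, 0, 0, 0, 5, 0]

/-- upper bounds for the cost of the prototypes -/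
def tau : Fin 6 → ℝ := ![4.22418, 3.4624, 3.01136, 3.00125, 3.90705, 3]

/-- the index set of the remaining cells: `M` hexagons in rows of `s`, away from the big cluster -/
def restK (A : ℤ) (s M : ℕ) : Finset (ℤ × ℤ) :=
  (Finset.range M).image (fun t : ℕ => (((t % s : ℕ) : ℤ), A + 3 + ((t / s : ℕ) : ℤ)))

end

end Pool.Agent.Helper79.HC
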