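import Pool.Agent.Helper79.HC.Disj
import Pool.Agent.Helper10.HC.Plane

/-!
# The cluster (HC-10)
-/

namespace Pool.Agent.Helper79.HC

open MeasureTheory Set

namespace Clu

theorem Per_le {E : Set ℂ} {B : ℝ} (h : ∀ φ : ℂ → ℂ, IsTest φ → ∫ z in E, dvg φ z ≤ B) :
    Per E ≤ ENNReal.ofReal B := by
  unfold Per
  refine iSup₂_le (fun φ hφ => ENNReal.ofReal_le_ofReal (h φ hφ))

/-- the flux through side `k` of the cell `C` with centre `o` -/
noncomputable def F (φ : ℂ → ℂ) (C : Cell) (o : ℂ) (k : Fin 6) : ℝ :=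
  fl φ (o + C.v k) (o + C.m k) (o + C.v (k + 1))

theorem abs_F_le {φ : ℂ → ℂ} (hφ : IsTest φ) (C : Cell) (o : ℂ) (k : Fin 6) :
    |F φ C o k| ≤ C.plen k := by
  unfold F Cell.plen
  rw [← len_add o]
  exact fl_le_len hφ.smooth.continuous hφ.bound _ _ _

theorem plen_nonneg (C : Cell) (k : Fin 6) : 0 ≤ C.plen k := len_nonneg _ _ _

theorem Per_region {C : Cell} (hC : Good C) (o : ℂ) :
    Per (C.region o) ≤ ENNReal.ofReal (∑ k, C.plen k) := by
  apply Per_le
  intro φ hφ
  rw [(region_div hC o hφ.smooth).2]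
  exact Finset.sum_le_sum (fun k _ => (le_abs_self _).trans (abs_F_le hφ C o k))

theorem dl_add (k : Fin 6) : dl k + dl (k + 3) = 0 := by
  fin_cases k <;> rfl

theorem pos_add (c d : ℤ × ℤ) : pos (c + d) = pos c + pos d := by
  apply Complex.ext
  · simp only [pos, pt, Complex.add_re, Prod.fst_add, Prod.snd_add]
    push_cast
    ring
  · simp only [pos, pt, Complex.add_im, Prod.snd_add]
    push_cast
    ring

theorem F_match (φ : ℂ → ℂ) {C C' : Cell} {k : Fin 6} (h : Match C C' k) (c : ℤ × ℤ) :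
    F φ C' (pos (c + dl k)) (k + 3) = - F φ C (pos c) k := by
  obtain ⟨h1, h2, -, h4, h5⟩ := h
  have e4 : k + 3 + 1 = k + 4 := by
    rw [add_assoc]; rfl
  unfold F
  rw [← fl_symm]
  have a1 : pos (c + dl k) + C'.v (k + 3) = pos c + C.v (k + 1) := by
    rw [pos_add, h5]; ring
  have a2 : pos (c + dl k) + C'.v (k + 3 + 1) = pos c + C.v k := by
    rw [pos_add, h4, e4]; ring
  have a3 : pos (c + dl k) + C'.m (k + 3) = pos c + C.m k := by
    have : pos (c + dl k) + C'.m (k + 3) = mid (pos (c + dl k) + C'.v (k + 3))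
        (pos (c + dl k) + C'.v (k + 3 + 1)) := by
      unfold Cell.m mid
      rw [h2]
      ring
    rw [this, a1, a2]
    unfold Cell.m mid
    rw [h1]
    ring
  rw [a1, a2, a3]

open Classical in
/-- the fluxes through the inner sides cancel -/
theorem sum_inner (φ : ℂ → ℂ) (K : Finset (ℤ × ℤ)) (C : ℤ × ℤ → Cell)
    (hM : ∀ c ∈ K, ∀ k, c + dl k ∈ K → Match (C c) (C (c + dl k)) k) :
    ∑ x ∈ (K ×ˢ (Finset.univ : Finset (Fin 6))).filter (fun x => x.1 + dl x.2 ∈ K),
      F φ (C x.1) (pos x.1) x.2 = 0 := by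
  refine Finset.sum_involution (fun x _ => (x.1 + dl x.2, x.2 + 3)) ?_ ?_ ?_ ?_
  · rintro ⟨c, k⟩ hx
    rw [Finset.mem_filter, Finset.mem_product] at hx
    simp only at hx ⊢
    rw [F_match φ (hM c hx.1.1 k hx.2) c]
    ring
  · rintro ⟨c, k⟩ _ _
    intro h
    have h2 := congrArg Prod.snd h
    simp only at h2
    have h3 : ∀ k : Fin 6, k + 3 ≠ k := by decide
    exact h3 k h2
  · rintro ⟨c, k⟩ hx
    rw [Finset.mem_filter, Finset.mem_product] at hx ⊢
    simp only at hx ⊢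
    refine ⟨⟨hx.2, Finset.mem_univ _⟩, ?_⟩
    rw [add_assoc, dl_add, add_zero]
    exact hx.1.1
  · rintro ⟨c, k⟩ hx
    simp only
    rw [add_assoc, dl_add, add_zero, add_assoc]
    have : (3 : Fin 6) + 3 = 0 := rfl
    rw [this, add_zero]

end Clu

open Clu

open Classical in
theorem cluster_bound (K : Finset (ℤ × ℤ)) (C : ℤ × ℤ → Cell) (hG : ∀ c ∈ K, Good (C c))
    (hM : ∀ c ∈ K, ∀ k, c + dl k ∈ K → Match (C c) (C (c + dl k)) k) :
    p K.card ≤ ENNReal.ofReal ((∑ c ∈ K, ∑ k, (C c).plen k +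
      ∑ c ∈ K, ∑ k ∈ Finset.univ.filter (fun k => c + dl k ∉ K), (C c).plen k) / 2) := by
  set R : Fin K.card → Set ℂ := fun i =>
    (C (K.equivFin.symm i : ℤ × ℤ)).region (pos (K.equivFin.symm i : ℤ × ℤ)) with hR
  have hmem : ∀ i, ((K.equivFin.symm i : K) : ℤ × ℤ) ∈ K := fun i => (K.equivFin.symm i).2
  have hmeas : ∀ i, MeasurableSet (R i) := fun i => region_measurable (hG _ (hmem i)) _
  have hdisj : ∀ i j, i ≠ j → Disjoint (R i) (R j) := by
    intro i j hij
    apply region_disjoint (hG _ (hmem i)) (hG _ (hmem j))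
    · intro h
      apply hij
      exact K.equivFin.symm.injective (Subtype.ext h)
    · intro k hk
      rw [hk]
      exact hM _ (hmem i) k (by rw [← hk]; exact hmem j)
  have hPer : ∀ i, Per (R i) ≤ ENNReal.ofReal (∑ k, (C (K.equivFin.symm i : ℤ × ℤ)).plen k) :=
    fun i => Per_region (hG _ (hmem i)) _
  have hcl : IsCluster R := by
    refine ⟨hmeas, hdisj, fun i => region_volume (hG _ (hmem i)) _, fun i => ?_⟩
    exact (hPer i).trans_lt ENNReal.ofReal_lt_top
  -- the exterior region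
  have hext : Per (⋃ i, R i)ᶜ ≤ ENNReal.ofReal
      (∑ c ∈ K, ∑ k ∈ Finset.univ.filter (fun k => c + dl k ∉ K), (C c).plen k) := by
    apply Per_le
    intro φ hφ
    have hint := dvg_integrable hφ.smooth hφ.supp
    have h1 := integral_add_compl (MeasurableSet.iUnion hmeas) hint
    rw [integral_dvg hφ.smooth hφ.supp] at h1
    have h2 : ∫ z in ⋃ i, R i, dvg φ z = ∑ i, ∫ z in R i, dvg φ z :=
      integral_iUnion_fintype hmeas (fun i j hij => hdisj i j hij)
        (fun i => hint.integrableOn)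
    have h3 : ∑ i, ∫ z in R i, dvg φ z = ∑ c ∈ K, ∑ k, F φ (C c) (pos c) k := by
      rw [← Finset.sum_coe_sort K]
      refine Fintype.sum_equiv K.equivFin.symm _ _ (fun i => ?_)
      exact (region_div (hG _ (hmem i)) _ hφ.smooth).2
    have h4 : ∑ c ∈ K, ∑ k, F φ (C c) (pos c) k =
        ∑ x ∈ (K ×ˢ (Finset.univ : Finset (Fin 6))).filter (fun x => ¬ (x.1 + dl x.2 ∈ K)),
          F φ (C x.1) (pos x.1) x.2 := by
      rw [← Finset.sum_product',
        ← Finset.sum_filter_add_sum_filter_not (K ×ˢ (Finset.univ : Finset (Fin 6)))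
          (fun x => x.1 + dl x.2 ∈ K), sum_inner φ K C hM, zero_add]
    have h5 : ∫ z in (⋃ i, R i)ᶜ, dvg φ z = - ∑ c ∈ K, ∑ k, F φ (C c) (pos c) k := by
      rw [← h3, ← h2]
      linarith
    rw [h5, h4]
    have h6 : ∑ c ∈ K, ∑ k ∈ Finset.univ.filter (fun k => c + dl k ∉ K), (C c).plen k =
        ∑ x ∈ (K ×ˢ (Finset.univ : Finset (Fin 6))).filter (fun x => ¬ (x.1 + dl x.2 ∈ K)),
          (C x.1).plen x.2 := by
      rw [Finset.sum_filter, Finset.sum_product]
      refine Finset.sum_congr rfl (fun c _ => ?_)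
      rw [Finset.sum_filter]
    rw [h6, ← Finset.sum_neg_distrib]
    exact Finset.sum_le_sum (fun x _ => (neg_le_abs _).trans (abs_F_le hφ _ _ _))
  -- the bound for the cluster
  have hle : p K.card ≤ clusterPer R := iInf₂_le R hcl
  refine hle.trans ?_
  unfold clusterPer
  have hS0 : 0 ≤ ∑ c ∈ K, ∑ k, (C c).plen k :=
    Finset.sum_nonneg (fun c _ => Finset.sum_nonneg (fun k _ => plen_nonneg _ _))
  have hE0 : 0 ≤ ∑ c ∈ K, ∑ k ∈ Finset.univ.filter (fun k => c + dl k ∉ K), (C c).plen k :=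
    Finset.sum_nonneg (fun c _ => Finset.sum_nonneg (fun k _ => plen_nonneg _ _))
  rw [ENNReal.ofReal_div_of_pos (by norm_num), ENNReal.ofReal_add hS0 hE0]
  have h2 : ENNReal.ofReal 2 = 2 := by norm_num
  rw [h2, add_comm (ENNReal.ofReal _) (ENNReal.ofReal _)]
  apply ENNReal.div_le_div_right
  apply add_le_add hext
  refine (Finset.sum_le_sum (fun i _ => hPer i)).trans ?_
  rw [← ENNReal.ofReal_sum_of_nonneg (fun i _ => Finset.sum_nonneg (fun k _ => plen_nonneg _ _))]
  apply le_of_eq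
  congr 1
  rw [← Finset.sum_coe_sort K]
  exact Fintype.sum_equiv K.equivFin.symm _ _ (fun i => rfl)

end Pool.Agent.Helper79.HC
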