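import Pool.Agent.Helper79.HC.Region

/-!
# Disjointness of the cells (HC-6)
-/

namespace Pool.Agent.Helper79.HC

open MeasureTheory Set

namespace Dis

theorem fn3_sub (j : Fin 3) (x y : ℂ) : fn3 j (x - y) = fn3 j x - fn3 j y := by
  fin_cases j <;> simp [fn3] <;> ring

theorem fn3_pos (c : ℤ × ℤ) : fn3 0 (pos c) = Real.sqrt 3 / 2 * (2 * c.1 + c.2 : ℤ) ∧
    fn3 1 (pos c) = Real.sqrt 3 / 2 * (c.1 + 2 * c.2 : ℤ) ∧
    fn3 2 (pos c) = Real.sqrt 3 / 2 * (c.2 - c.1 : ℤ) := by
  refine ⟨?_, ?_, ?_⟩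
  · simp only [fn3, pos, pt]; push_cast; ring
  · simp only [fn3, pos, pt]; push_cast; ring
  · simp only [fn3, pos, pt]; push_cast; ring

theorem pos_add (c d : ℤ × ℤ) : pos (c + d) = pos c + pos d := by
  apply Complex.ext
  · simp only [pos, pt, Complex.add_re, Prod.fst_add, Prod.snd_add]
    push_cast
    ring
  · simp only [pos, pt, Complex.add_im, Prod.snd_add]
    push_cast
    ring

/-- two different cells which are not adjacent are far apart -/
theorem far {d : ℤ × ℤ} (h0 : d ≠ 0) (h : ∀ k, d ≠ dl k) :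
    3 ≤ |2 * d.1 + d.2| ∨ 3 ≤ |d.1 + 2 * d.2| ∨ 3 ≤ |d.2 - d.1| := by
  obtain ⟨x, y⟩ := d
  have e0 := h 0
  have e1 := h 1
  have e2 := h 2
  have e3 := h 3
  have e4 := h 4
  have e5 := h 5
  simp only [dl, Matrix.cons_val_zero, Matrix.cons_val_one, Matrix.cons_val, ne_eq,
    Prod.mk.injEq, Prod.mk_eq_zero] at *
  by_contra hcon
  push Not at hcon
  obtain ⟨h1, h2, h3⟩ := hcon
  rw [abs_lt] at h1 h2 h3
  omega

end Dis

open Dis

theorem region_disjoint {C C' : Cell} (hC : Good C) (hC' : Good C') {c c' : ℤ × ℤ} (hc : c ≠ c')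
    (hM : ∀ k, c' = c + dl k → Match C C' k) :
    Disjoint (C.region (pos c)) (C'.region (pos c')) := by
  rw [Set.disjoint_left]
  intro z hz hz'
  by_cases hadj : ∃ k, c' = c + dl k
  · obtain ⟨k, hk⟩ := hadj
    obtain ⟨h1, h2, h3, h4, h5⟩ := hM k hk
    have e4 : k + 3 + 1 = k + 4 := by
      rw [add_assoc]; rfl
    have a1 := region_half hC (pos c) h1 h3 hz
    have hv' : C'.v (k + 3) ≠ C'.v (k + 3 + 1) := by
      intro h
      apply h3
      rw [h4, h5, h, e4]
    have a2 := region_half hC' (pos c') h2 hv' hz'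
    rw [e4] at a2
    have b1 : C'.v (k + 4) - C'.v (k + 3) = -(C.v (k + 1) - C.v k) := by
      rw [h4, h5]; ring
    have b2 : z - (pos c' + C'.v (k + 3)) = z - (pos c + C.v (k + 1)) := by
      rw [h5, hk, pos_add]; ring
    rw [b1, b2] at a2
    simp only [cr, Complex.sub_re, Complex.sub_im, Complex.neg_re, Complex.neg_im,
      Complex.add_re, Complex.add_im] at a1 a2
    nlinarith
  · push Not at hadj
    have hfar := far (d := c' - c) (by
      intro h
      exact hc (sub_eq_zero.1 h).symm) (fun k h => hadj k (by rw [← h]; abel))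
    have hn : ∀ j, |fn3 j (pos c') - fn3 j (pos c)| < 3 * Real.sqrt 3 / 2 := by
      intro j
      have a1 := region_norm hC (pos c) j hz
      have a2 := region_norm hC' (pos c') j hz'
      rw [fn3_sub, abs_lt] at a1 a2
      rw [abs_lt]
      constructor <;> linarith [a1.1, a1.2, a2.1, a2.2]
    obtain ⟨p0, p1, p2⟩ := fn3_pos c
    obtain ⟨q0, q1, q2⟩ := fn3_pos c'
    have h3 : (0 : ℝ) < Real.sqrt 3 := Real.sqrt_pos.2 (by norm_num)
    have key : ∀ a b : ℤ, |Real.sqrt 3 / 2 * (a : ℝ) - Real.sqrt 3 / 2 * (b : ℝ)| <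
        3 * Real.sqrt 3 / 2 → |a - b| < 3 := by
      intro a b hab
      rw [← mul_sub, abs_mul, abs_of_pos (by positivity : (0 : ℝ) < Real.sqrt 3 / 2)] at hab
      have : |(a : ℝ) - b| < 3 := by
        by_contra hcon
        push Not at hcon
        nlinarith
      exact_mod_cast this
    have k0 := key _ _ (by have := hn 0; rw [p0, q0] at this; exact this)
    have k1 := key _ _ (by have := hn 1; rw [p1, q1] at this; exact this)
    have k2 := key _ _ (by have := hn 2; rw [p2, q2] at this; exact this)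
    simp only [Prod.fst_sub, Prod.snd_sub] at hfar
    rw [abs_lt] at k0 k1 k2
    rw [le_abs, le_abs, le_abs] at hfar
    omega

end Pool.Agent.Helper79.HC
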