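import Pool.Agent.Helper42.HC.Len

/-!
# Rotations (HC-7)
-/

namespace Pool.Agent.Helper79.HC

open MeasureTheory Set

namespace RotAux

theorem s3 : Real.sqrt 3 * Real.sqrt 3 = 3 := Real.mul_self_sqrt (by norm_num)

theorem zeta_norm : ‖ζ‖ = 1 := by
  have h : Complex.normSq ζ = 1 := by
    rw [Complex.normSq_apply]
    simp only [ζ]
    nlinarith [s3]
  rw [Complex.normSq_eq_norm_sq] at h
  nlinarith [norm_nonneg ζ, sq_nonneg (‖ζ‖ - 1)]

theorem zeta_pow_norm (n : ℕ) : ‖ζ ^ n‖ = 1 := by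
  rw [norm_pow, zeta_norm, one_pow]

theorem zeta_pow_ne (n : ℕ) : ζ ^ n ≠ 0 := by
  intro h
  have := zeta_pow_norm n
  rw [h, norm_zero] at this
  norm_num at this

theorem zeta_six : ζ ^ 6 = 1 := by
  have h2 : ζ ^ 2 = ζ - 1 := by
    apply Complex.ext
    · simp only [ζ, sq, Complex.mul_re, Complex.sub_re, Complex.one_re]
      nlinarith [s3]
    · simp only [ζ, sq, Complex.mul_im, Complex.sub_im, Complex.one_im]
      ring
  have h3 : ζ ^ 3 = -1 := by
    linear_combination (ζ + 1) * h2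
  calc ζ ^ 6 = (ζ ^ 3) ^ 2 := by ring
    _ = 1 := by rw [h3]; ring

theorem cr_mul {z : ℂ} (hz : ‖z‖ = 1) (x y : ℂ) : cr (z * x) (z * y) = cr x y := by
  have h : z.re * z.re + z.im * z.im = 1 := by
    rw [← Complex.normSq_apply, Complex.normSq_eq_norm_sq, hz, one_pow]
  simp only [cr, Complex.mul_re, Complex.mul_im]
  linear_combination (x.re * y.im - x.im * y.re) * h

theorem cr_mul_left {z : ℂ} (hz : ‖z‖ = 1) (x y : ℂ) : cr (z * x) y = cr x (z⁻¹ * y) := by
  have hz0 : z ≠ 0 := by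
    intro h
    rw [h, norm_zero] at hz
    norm_num at hz
  rw [← cr_mul hz x (z⁻¹ * y), mul_inv_cancel_left₀ hz0]

theorem cr_mul_right {z : ℂ} (hz : ‖z‖ = 1) (x y : ℂ) : cr x (z * y) = cr (z⁻¹ * x) y := by
  have hz0 : z ≠ 0 := by
    intro h
    rw [h, norm_zero] at hz
    norm_num at hz
  rw [← cr_mul hz (z⁻¹ * x) y, mul_inv_cancel_left₀ hz0]

theorem rot_m (C : Cell) (r k : Fin 6) : (C.rot r).m k = ζ ^ (r : ℕ) * C.m (k - r) := by
  have e : k + 1 - r = k - r + 1 := by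
    rw [sub_add_eq_add_sub]
  simp only [Cell.m, Cell.rot, mid]
  rw [e]
  ring

theorem rot_v (C : Cell) (r k : Fin 6) : (C.rot r).v k = ζ ^ (r : ℕ) * C.v (k - r) := rfl

theorem rot_v1 (C : Cell) (r k : Fin 6) :
    (C.rot r).v (k + 1) = ζ ^ (r : ℕ) * C.v (k - r + 1) := by
  have e : k + 1 - r = k - r + 1 := by
    rw [sub_add_eq_add_sub]
  rw [rot_v, e]

theorem rot_b (C : Cell) (r k : Fin 6) : (C.rot r).b k = ζ ^ (r : ℕ) * C.b (k - r) := rfl

/-- the bound of the three functionals is invariant -/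
def NB (z : ℂ) : Prop := ∀ j, |fn3 j z| < 3 * Real.sqrt 3 / 4

theorem fn_zeta (z : ℂ) : fn3 0 (ζ * z) = - fn3 2 z ∧ fn3 1 (ζ * z) = fn3 0 z ∧
    fn3 2 (ζ * z) = fn3 1 z := by
  refine ⟨?_, ?_, ?_⟩
  · simp only [fn3, ζ, Complex.mul_re]
    ring
  · simp only [fn3, ζ, Complex.mul_re, Complex.mul_im]
    linear_combination (z.re / 4) * s3
  · simp only [fn3, ζ, Complex.mul_re, Complex.mul_im]
    linear_combination (z.re / 4) * s3

theorem NB_zeta {z : ℂ} (h : NB z) : NB (ζ * z) := by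
  obtain ⟨h0, h1, h2⟩ := fn_zeta z
  intro j
  fin_cases j
  · change |fn3 0 (ζ * z)| < _
    rw [h0, abs_neg]; exact h 2
  · change |fn3 1 (ζ * z)| < _
    rw [h1]; exact h 0
  · change |fn3 2 (ζ * z)| < _
    rw [h2]; exact h 1

theorem NB_pow {z : ℂ} (h : NB z) (n : ℕ) : NB (ζ ^ n * z) := by
  induction n with
  | zero => simpa using h
  | succ n ih =>
    have : ζ ^ (n + 1) * z = ζ * (ζ ^ n * z) := by ring
    rw [this]
    exact NB_zeta ih

theorem pos_dl_succ (k : Fin 6) : pos (dl (k + 1)) = ζ * pos (dl k) := by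
  fin_cases k <;>
  · apply Complex.ext
    · simp [pos, pt, dl, ζ]
      try nlinarith [s3]
    · simp [pos, pt, dl, ζ]
      try nlinarith [s3]

theorem step {f : Fin 6 → ℂ} (h : ∀ k, f (k + 1) = ζ * f k) (r k : Fin 6) :
    f (k + r) = ζ ^ (r : ℕ) * f k := by
  have h0 : f (k + 0) = ζ ^ 0 * f k := by simp
  have h1 : f (k + 1) = ζ ^ 1 * f k := by rw [h, pow_one]
  have h2 : f (k + 2) = ζ ^ 2 * f k := by
    have e : k + 2 = k + 1 + 1 := by rw [add_assoc]; rfl
    rw [e, h, h1]; ring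
  have h3 : f (k + 3) = ζ ^ 3 * f k := by
    have e : k + 3 = k + 2 + 1 := by rw [add_assoc]; rfl
    rw [e, h, h2]; ring
  have h4 : f (k + 4) = ζ ^ 4 * f k := by
    have e : k + 4 = k + 3 + 1 := by rw [add_assoc]; rfl
    rw [e, h, h3]; ring
  have h5 : f (k + 5) = ζ ^ 5 * f k := by
    have e : k + 5 = k + 4 + 1 := by rw [add_assoc]; rfl
    rw [e, h, h4]; ring
  rcases r with ⟨n, hn⟩
  interval_cases n
  · exact h0
  · exact h1
  · exact h2
  · exact h3
  · exact h4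
  · exact h5

theorem pos_dl_add (k r : Fin 6) : pos (dl (k + r)) = ζ ^ (r : ℕ) * pos (dl k) :=
  step (f := fun k => pos (dl k)) pos_dl_succ r k

theorem pos_dl_three (k : Fin 6) : pos (dl (k + 3)) = - pos (dl k) := by
  rw [pos_dl_add k 3]
  have h3 : ζ ^ ((3 : Fin 6) : ℕ) = -1 := by
    have h2 : ζ ^ 2 = ζ - 1 := by
      apply Complex.ext
      · simp only [ζ, sq, Complex.mul_re, Complex.sub_re, Complex.one_re]
        nlinarith [s3]
      · simp only [ζ, sq, Complex.mul_im, Complex.sub_im, Complex.one_im]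
        ring
    change ζ ^ 3 = -1
    linear_combination (ζ + 1) * h2
  rw [h3]
  ring

end RotAux

open RotAux

theorem Good.rot {C : Cell} (hC : Good C) (r : Fin 6) : Good (C.rot r) := by
  have hz := zeta_pow_norm (r : ℕ)
  have hz0 := zeta_pow_ne (r : ℕ)
  refine ⟨?_, ?_, ?_, ?_, ?_⟩
  · intro k
    rw [rot_m, rot_v1, rot_v, rot_b, cr_mul hz, cr_mul hz, cr_mul hz]
    rcases hC.piece (k - r) with h | h
    · left
      rw [← h.1, h.2]
      simp
    · right
      exact h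
  · intro k l hkl z hz'
    rw [rot_v1, rot_v1, rot_v, rot_v, cr_mul_left hz, cr_mul_right hz, cr_mul_left hz,
      cr_mul_right hz] at hz'
    refine hC.wedge (k - r) (l - r) ?_ ((ζ ^ (r : ℕ))⁻¹ * z) hz'
    intro h
    exact hkl (sub_left_injective h)
  · have h : ∀ k, cr ((C.rot r).v k) ((C.rot r).m k) / 3 +
        cr ((C.rot r).v k) ((C.rot r).v (k + 1)) / 6 +
        cr ((C.rot r).m k) ((C.rot r).v (k + 1)) / 3 =
        (fun k => cr (C.v k) (C.m k) / 3 + cr (C.v k) (C.v (k + 1)) / 6 +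
          cr (C.m k) (C.v (k + 1)) / 3) (k - r) := by
      intro k
      rw [rot_m, rot_v1, rot_v, cr_mul hz, cr_mul hz, cr_mul hz]
    rw [Finset.sum_congr rfl (fun k _ => h k), ← hC.area]
    exact Fintype.sum_equiv (Equiv.subRight r) _ _ (fun k => rfl)
  · intro k hb l
    rw [rot_b] at hb
    have hb' : C.b (k - r) = 0 := by
      rcases mul_eq_zero.1 hb with h | h
      · exact absurd h hz0
      · exact h
    rw [rot_m, rot_v1, rot_v, rot_v, ← mul_sub, ← mul_sub, ← mul_sub, cr_mul hz, cr_mul hz]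
    exact hC.half (k - r) hb' (l - r)
  · intro l j
    rw [rot_m, rot_v]
    exact ⟨NB_pow (fun j => (hC.norm (l - r) j).1) _ j, NB_pow (fun j => (hC.norm (l - r) j).2) _ j⟩

theorem plen_rot (C : Cell) (r k : Fin 6) : (C.rot r).plen k = C.plen (k - r) := by
  unfold Cell.plen
  rw [rot_m, rot_v1, rot_v, len_mul (zeta_pow_norm _)]

theorem Match.symm {C C' : Cell} {k : Fin 6} (h : Match C C' k) : Match C' C (k + 3) := by
  obtain ⟨h1, h2, h3, h4, h5⟩ := h
  have e33 : k + 3 + 3 = k := by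
    rw [add_assoc]
    have : (3 : Fin 6) + 3 = 0 := rfl
    rw [this, add_zero]
  have e31 : k + 3 + 1 = k + 4 := by
    rw [add_assoc]; rfl
  have e34 : k + 3 + 4 = k + 1 := by
    rw [add_assoc]; rfl
  refine ⟨h2, ?_, ?_, ?_, ?_⟩
  · rw [e33]; exact h1
  · rw [e31]
    intro h
    apply h3
    rw [h4, h5, h]
  · rw [e34, h5, pos_dl_three]
    ring
  · rw [e33, e31, h4, pos_dl_three]
    ring

theorem Match.rot {C C' : Cell} {k : Fin 6} (h : Match C C' k) (r : Fin 6) :
    Match (C.rot r) (C'.rot r) (k + r) := by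
  obtain ⟨h1, h2, h3, h4, h5⟩ := h
  have e0 : k + r - r = k := by rw [add_sub_cancel_right]
  have e3 : k + r + 3 - r = k + 3 := by
    rw [add_right_comm, add_sub_cancel_right]
  have e4 : k + r + 4 - r = k + 4 := by
    rw [add_right_comm, add_sub_cancel_right]
  refine ⟨?_, ?_, ?_, ?_, ?_⟩
  · rw [rot_b, e0, h1, mul_zero]
  · rw [rot_b, e3, h2, mul_zero]
  · rw [rot_v1, rot_v, e0]
    intro h
    exact h3 (mul_left_cancel₀ (zeta_pow_ne _) h)
  · rw [rot_v, rot_v, e0, e4, pos_dl_add, h4]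
    ring
  · rw [rot_v1, rot_v, e0, e3, pos_dl_add, h5]
    ring

theorem proto5_rot (r : Fin 6) : (proto 5).rot r = proto 5 := by
  have hv : ∀ k : Fin 6, (proto 5).v (k + 1) = ζ * (proto 5).v k := by
    intro k
    fin_cases k <;>
    · apply Complex.ext
      · simp [proto, pt, ζ]
        try nlinarith [s3]
      · simp [proto, pt, ζ]
        try nlinarith [s3]
  have hb : ∀ k : Fin 6, (proto 5).b k = 0 := by
    intro k
    fin_cases k <;> rfl
  have e : (proto 5).rot r = ⟨((proto 5).rot r).v, ((proto 5).rot r).b⟩ := rfl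
  have e' : proto 5 = ⟨(proto 5).v, (proto 5).b⟩ := rfl
  rw [e]
  conv_rhs => rw [e']
  congr 1
  · funext k
    rw [rot_v]
    have := step hv r (k - r)
    rw [sub_add_cancel] at this
    rw [this]
  · funext k
    rw [rot_b, hb, hb, mul_zero]

end Pool.Agent.Helper79.HC
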