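import Pool.Agent.Helper79.HC.Cluster
import Pool.Agent.Helper79.HC.Rot
import Pool.Agent.Helper13.HC.ProtoGood
import Pool.Agent.Helper42.HC.Match
import Pool.Agent.Helper21.HC.MatchBig
import Pool.Agent.Helper97.HC.Ext
import Pool.Agent.Helper27.HC.CardBigK
import Pool.Agent.Helper27.HC.CardT
import Pool.Agent.Helper16.HC.Rest

/-!
# The bound for one number
-/

namespace Pool.Agent.Helper79.HC

open MeasureTheory Set

theorem match_big {A D : ℤ} (hD : 10 ≤ D) (hA : 4 * D ≤ A) {c : ℤ × ℤ} {k : Fin 6}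
    (hc : InK A D c) (hk : InK A D (c + dl k)) :
    Match (cellAt A D c) (cellAt A D (c + dl k)) k :=
  match_big_of ⟨Match.symm, Match.rot, proto5_rot, match55, match_T, match_Z⟩ hD hA hc hk

namespace PLe

theorem plen_nonneg (C : Cell) (k : Fin 6) : 0 ≤ C.plen k := len_nonneg _ _ _

theorem mem_bigK {A D : ℤ} {c : ℤ × ℤ} : c ∈ bigK A D ↔ InK A D c := by
  simp only [bigK, Finset.mem_filter, Finset.mem_product, Finset.mem_Icc]
  refine ⟨fun h => h.2, fun h => ⟨?_, h⟩⟩
  have h0 := (h 0).1
  have h2 := (h 2).1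
  have h3 := (h 3).1
  have h5 := (h 5).1
  simp only [w] at h0 h2 h3 h5
  omega

theorem mem_restK {A : ℤ} {s M : ℕ} {c : ℤ × ℤ} (h : c ∈ restK A s M) : A + 3 ≤ c.2 := by
  unfold restK at h
  rw [Finset.mem_image] at h
  obtain ⟨t, -, rfl⟩ := h
  have h1 : (0 : ℤ) ≤ ((t / s : ℕ) : ℤ) := Int.natCast_nonneg _
  change A + 3 ≤ A + 3 + ((t / s : ℕ) : ℤ)
  linarith

theorem not_inK {A D : ℤ} {s M : ℕ} {c : ℤ × ℤ} (h : c ∈ restK A s M) : ¬ InK A D c := by
  intro h1
  have h2 := (h1 2).1
  have h3 := mem_restK h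
  simp only [w] at h2
  omega

theorem dl_snd (k : Fin 6) : -1 ≤ (dl k).2 ∧ (dl k).2 ≤ 1 := by
  fin_cases k <;> simp [dl]

theorem sum_plen_cellAt {A D : ℤ} {c : ℤ × ℤ} (hc : InK A D c) :
    ∑ k, (cellAt A D c).plen k = ∑ k, (proto (ty A D c).1).plen k := by
  unfold cellAt
  rw [if_pos hc]
  simp only [plen_rot]
  exact Fintype.sum_equiv (Equiv.subRight (ty A D c).2) _ _ (fun k => rfl)

theorem cellAt_rest {A D : ℤ} {c : ℤ × ℤ} (hc : ¬ InK A D c) : cellAt A D c = proto 5 := by
  unfold cellAt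
  rw [if_neg hc]

theorem tau_nonneg (t : Fin 6) : 0 ≤ tau t := by
  fin_cases t <;> norm_num [tau]

open Classical in
/-- the cost of one cell of the big cluster -/
theorem cost_big {A D : ℤ} (hD : 10 ≤ D) (hA : 4 * D ≤ A) {c : ℤ × ℤ} (hc : InK A D c) :
    (∑ k, (cellAt A D c).plen k +
      ∑ k ∈ Finset.univ.filter (fun k => ¬ InK A D (c + dl k)), (cellAt A D c).plen k) / 2 ≤
      tau (ty A D c).1 + (if Near A D c then 8 else 0) := by
  by_cases hn : Near A D c
  · rw [if_pos hn]
    have h1 : ∑ k ∈ Finset.univ.filter (fun k => ¬ InK A D (c + dl k)), (cellAt A D c).plen k ≤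
        ∑ k, (cellAt A D c).plen k :=
      Finset.sum_le_sum_of_subset_of_nonneg (Finset.filter_subset _ _)
        (fun k _ _ => plen_nonneg _ _)
    have h2 : ∑ k, (cellAt A D c).plen k ≤ 8 := by
      rw [sum_plen_cellAt hc]
      exact sum_plen_le _
    have h3 := tau_nonneg (ty A D c).1
    linarith
  · rw [if_neg hn, add_zero]
    have h1 := ext_big hD hA hc hn
    have h2 := cost_le (ty A D c).1
    rw [sum_plen_cellAt hc]
    have h3 : (∑ k ∈ Finset.univ.filter (fun k => ¬ InK A D (c + dl k)),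
        (cellAt A D c).plen k) ≤ _ := h1
    refine le_trans ?_ h2
    linarith

open Classical in
theorem sum_tau {A D : ℤ} (hD : 10 ≤ D) (hA : 4 * D ≤ A) :
    ∑ c ∈ bigK A D, tau (ty A D c).1 ≤ 3 * (bigK A D).card +
      6 * (A - 2 * D - 5) * 0.90705 + 6 * D * (13.6993 - 12) := by
  have h1 : ∑ c ∈ bigK A D, tau (ty A D c).1 =
      ∑ t : Fin 6, ((bigK A D).filter (fun c => (ty A D c).1 = t)).card * tau t := by
    rw [← Finset.sum_fiberwise_of_maps_to (g := fun c => (ty A D c).1)
      (t := Finset.univ) (fun _ _ => Finset.mem_univ _)]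
    refine Finset.sum_congr rfl (fun t _ => ?_)
    rw [Finset.sum_congr rfl (g := fun _ => tau t)
      (fun c hc => by rw [(Finset.mem_filter.1 hc).2])]
    rw [Finset.sum_const, nsmul_eq_mul]
  have h2 : ((bigK A D).card : ℝ) =
      ∑ t : Fin 6, (((bigK A D).filter (fun c => (ty A D c).1 = t)).card : ℝ) := by
    have := Finset.card_eq_sum_card_fiberwise (f := fun c => (ty A D c).1) (s := bigK A D)
      (t := Finset.univ) (fun _ _ => Finset.mem_coe.2 (Finset.mem_univ _))
    exact_mod_cast this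
  have hT0 := card_T hD hA 0
  have hT1 := card_T hD hA 1
  have hT2 := card_T hD hA 2
  have hT3 := card_T hD hA 3
  have hZ := card_Z hD hA
  have e0 : Fin.castLE (by norm_num : 4 ≤ 6) (0 : Fin 4) = (0 : Fin 6) := rfl
  have e1 : Fin.castLE (by norm_num : 4 ≤ 6) (1 : Fin 4) = (1 : Fin 6) := rfl
  have e2 : Fin.castLE (by norm_num : 4 ≤ 6) (2 : Fin 4) = (2 : Fin 6) := rfl
  have e3 : Fin.castLE (by norm_num : 4 ≤ 6) (3 : Fin 4) = (3 : Fin 6) := rfl
  rw [e0] at hT0
  rw [e1] at hT1
  rw [e2] at hT2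
  rw [e3] at hT3
  have hT0' : (((bigK A D).filter (fun c => (ty A D c).1 = 0)).card : ℝ) ≤
      6 * (D - 5 + 0) := by exact_mod_cast hT0
  have hT1' : (((bigK A D).filter (fun c => (ty A D c).1 = 1)).card : ℝ) ≤
      6 * (D - 5 + 1) := by exact_mod_cast hT1
  have hT2' : (((bigK A D).filter (fun c => (ty A D c).1 = 2)).card : ℝ) ≤
      6 * (D - 5 + 2) := by exact_mod_cast hT2
  have hT3' : (((bigK A D).filter (fun c => (ty A D c).1 = 3)).card : ℝ) ≤
      6 * (D - 5 + 3) := by exact_mod_cast hT3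
  have hZ' : (((bigK A D).filter (fun c => (ty A D c).1 = 4)).card : ℝ) ≤
      6 * (A - 2 * D - 5) := by exact_mod_cast hZ
  rw [h1, h2]
  simp only [Fin.sum_univ_six]
  have t0 : tau 0 = 4.22418 := rfl
  have t1 : tau 1 = 3.4624 := rfl
  have t2 : tau 2 = 3.01136 := rfl
  have t3 : tau 3 = 3.00125 := rfl
  have t4 : tau 4 = 3.90705 := rfl
  have t5 : tau 5 = 3 := rfl
  rw [t0, t1, t2, t3, t4, t5]
  nlinarith

end PLe

open PLe in
open Classical in
theorem p_le (A D : ℤ) (hD : 10 ≤ D) (hA : 4 * D ≤ A) (s M : ℕ) (hs : 0 < s) (hM : M ≤ s ^ 2) :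
    p ((bigK A D).card + M) ≤ ENNReal.ofReal (3 * ((bigK A D).card + M) +
      6 * (A - 2 * D - 5) * 0.90705 + 6 * D * (13.6993 - 12) + 10000 + 100 * s) := by
  have hdis : Disjoint (bigK A D) (restK A s M) := by
    rw [Finset.disjoint_left]
    intro c h1 h2
    exact not_inK h2 (mem_bigK.1 h1)
  have hcard : (bigK A D ∪ restK A s M).card = (bigK A D).card + M := by
    rw [Finset.card_union_of_disjoint hdis, card_restK A s M hs]
  have hG : ∀ c ∈ bigK A D ∪ restK A s M, Good (cellAt A D c) := by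
    intro c _
    unfold cellAt
    split_ifs
    · exact (proto_good _).rot _
    · exact proto_good 5
  have hMt : ∀ c ∈ bigK A D ∪ restK A s M, ∀ k, c + dl k ∈ bigK A D ∪ restK A s M →
      Match (cellAt A D c) (cellAt A D (c + dl k)) k := by
    intro c hc k hk
    rw [Finset.mem_union] at hc hk
    have hd := dl_snd k
    rcases hc with hc | hc <;> rcases hk with hk | hk
    · exact match_big hD hA (mem_bigK.1 hc) (mem_bigK.1 hk)
    · exfalso
      have h1 := (mem_bigK.1 hc 2).1
      have h2 := mem_restK hk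
      simp only [w, Prod.snd_add] at h1 h2
      omega
    · exfalso
      have h1 := (mem_bigK.1 hk 2).1
      have h2 := mem_restK hc
      simp only [w, Prod.snd_add] at h1 h2
      omega
    · rw [cellAt_rest (not_inK hc), cellAt_rest (not_inK hk)]
      exact match55 k
  have hmain := cluster_bound (bigK A D ∪ restK A s M) (cellAt A D) hG hMt
  rw [hcard] at hmain
  refine hmain.trans (ENNReal.ofReal_le_ofReal ?_)
  -- split the sums
  rw [Finset.sum_union hdis, Finset.sum_union hdis]
  -- the part of the big cluster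
  have hb : (∑ c ∈ bigK A D, ∑ k, (cellAt A D c).plen k +
      ∑ c ∈ bigK A D, ∑ k ∈ Finset.univ.filter (fun k => c + dl k ∉ bigK A D ∪ restK A s M),
        (cellAt A D c).plen k) / 2 ≤ ∑ c ∈ bigK A D, tau (ty A D c).1 + 8 * 1000 := by
    rw [← Finset.sum_add_distrib, Finset.sum_div]
    have h1 : ∀ c ∈ bigK A D, (∑ k, (cellAt A D c).plen k +
        ∑ k ∈ Finset.univ.filter (fun k => c + dl k ∉ bigK A D ∪ restK A s M),
          (cellAt A D c).plen k) / 2 ≤ tau (ty A D c).1 + (if Near A D c then 8 else 0) := by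
      intro c hc
      refine le_trans ?_ (cost_big hD hA (mem_bigK.1 hc))
      have h2 : ∑ k ∈ Finset.univ.filter (fun k => c + dl k ∉ bigK A D ∪ restK A s M),
          (cellAt A D c).plen k ≤
          ∑ k ∈ Finset.univ.filter (fun k => ¬ InK A D (c + dl k)), (cellAt A D c).plen k := by
        apply Finset.sum_le_sum_of_subset_of_nonneg
        · intro k hk
          rw [Finset.mem_filter] at hk ⊢
          refine ⟨hk.1, fun h => hk.2 ?_⟩
          exact Finset.mem_union_left _ (mem_bigK.2 h)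
        · intro k _ _
          exact plen_nonneg _ _
      linarith
    refine (Finset.sum_le_sum h1).trans ?_
    rw [Finset.sum_add_distrib]
    have h3 : ∑ c ∈ bigK A D, (if Near A D c then (8 : ℝ) else 0) ≤ 8 * 1000 := by
      rw [← Finset.sum_filter, Finset.sum_const, nsmul_eq_mul]
      have h4 : (((bigK A D).filter (Near A D)).card : ℝ) ≤ 1000 := by
        exact_mod_cast card_near hD hA
      linarith
    linarith
  -- the remaining cells
  have hr : (∑ c ∈ restK A s M, ∑ k, (cellAt A D c).plen k +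
      ∑ c ∈ restK A s M, ∑ k ∈ Finset.univ.filter (fun k => c + dl k ∉ bigK A D ∪ restK A s M),
        (cellAt A D c).plen k) / 2 ≤ 3 * M + 30 * s := by
    have h1 : ∑ c ∈ restK A s M, ∑ k, (cellAt A D c).plen k = 6 * M := by
      rw [Finset.sum_congr rfl (g := fun _ => (6 : ℝ))]
      · rw [Finset.sum_const, card_restK A s M hs, nsmul_eq_mul]
        ring
      · intro c hc
        rw [cellAt_rest (not_inK hc)]
        simp [plen5]
    have h2 : ∑ c ∈ restK A s M,
        ∑ k ∈ Finset.univ.filter (fun k => c + dl k ∉ bigK A D ∪ restK A s M),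
          (cellAt A D c).plen k ≤ 60 * s := by
      have h3 : ∑ c ∈ restK A s M,
          ∑ k ∈ Finset.univ.filter (fun k => c + dl k ∉ bigK A D ∪ restK A s M),
            (cellAt A D c).plen k ≤
          ∑ c ∈ restK A s M,
            ((Finset.univ.filter (fun k => c + dl k ∉ restK A s M)).card : ℝ) := by
        apply Finset.sum_le_sum
        intro c hc
        rw [cellAt_rest (not_inK hc)]
        simp only [plen5]
        rw [Finset.sum_const, nsmul_eq_mul, mul_one]
        norm_cast
        apply Finset.card_le_card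
        intro k hk
        rw [Finset.mem_filter] at hk ⊢
        refine ⟨hk.1, fun h => hk.2 ?_⟩
        exact Finset.mem_union_right _ h
      refine h3.trans ?_
      have h4 := ext_restK A s M hs hM
      exact_mod_cast h4
    rw [h1]
    linarith
  have ht := sum_tau hD hA
  linarith

end Pool.Agent.Helper79.HC
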