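import Pool.Agent.Helper68.HC.Cone
import Pool.Agent.Helper68.HC.ConeDiv
import Pool.Agent.Helper42.HC.Len

/-!
# The region of a cell (HC-5)
-/

namespace Pool.Agent.Helper79.HC

open MeasureTheory Set

namespace Reg

/-- one of the six parts of the region -/
def W (C : Cell) (o : ℂ) (k : Fin 6) : Set ℂ :=
  ⋃ (_ : C.v k ≠ C.v (k + 1)), cone o (o + C.v k) (o + C.m k) (o + C.v (k + 1))

theorem region_eq (C : Cell) (o : ℂ) : C.region o = ⋃ k, W C o k := rfl

theorem W_of_ne {C : Cell} {k : Fin 6} (h : C.v k ≠ C.v (k + 1)) (o : ℂ) :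
    W C o k = cone o (o + C.v k) (o + C.m k) (o + C.v (k + 1)) := by
  simp [W, h]

theorem W_of_eq {C : Cell} {k : Fin 6} (h : C.v k = C.v (k + 1)) (o : ℂ) :
    W C o k = ∅ := by
  simp [W, h]

theorem pos_of_ne {C : Cell} (hC : Good C) {k : Fin 6} (h : C.v k ≠ C.v (k + 1)) (o : ℂ) :
    0 < cr (o + C.v k - o) (o + C.m k - o) ∧ 0 < cr (o + C.m k - o) (o + C.v (k + 1) - o) ∧
      0 < cr (o + C.v k - o) (o + C.v (k + 1) - o) := by
  simp only [add_sub_cancel_left]
  rcases hC.piece k with h1 | h1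
  · exact absurd h1.1 h
  · exact h1

theorem m_of_eq {C : Cell} (hC : Good C) {k : Fin 6} (h : C.v k = C.v (k + 1)) :
    C.m k = C.v k := by
  rcases hC.piece k with h1 | h1
  · rw [Cell.m, h1.2, ← h, mid]
    ring
  · exfalso
    have := h1.2.2
    rw [← h] at this
    simp [cr, mul_comm] at this

theorem cr_self (x : ℂ) : cr x x = 0 := by
  unfold cr; ring

theorem W_measurable {C : Cell} (hC : Good C) (o : ℂ) (k : Fin 6) : MeasurableSet (W C o k) := by
  by_cases h : C.v k = C.v (k + 1)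
  · rw [W_of_eq h]; exact MeasurableSet.empty
  · rw [W_of_ne h]
    obtain ⟨h1, h2, h3⟩ := pos_of_ne hC h o
    exact cone_measurable h1 h2 h3

theorem W_volume {C : Cell} (hC : Good C) (o : ℂ) (k : Fin 6) : volume (W C o k) =
    ENNReal.ofReal (cr (C.v k) (C.m k) / 3 + cr (C.v k) (C.v (k + 1)) / 6 +
      cr (C.m k) (C.v (k + 1)) / 3) := by
  by_cases h : C.v k = C.v (k + 1)
  · rw [W_of_eq h, m_of_eq hC h, ← h, cr_self]
    simp
  · rw [W_of_ne h]
    obtain ⟨h1, h2, h3⟩ := pos_of_ne hC h o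
    rw [cone_volume h1 h2 h3]
    simp only [add_sub_cancel_left]

theorem W_disjoint {C : Cell} (hC : Good C) (o : ℂ) {k l : Fin 6} (hkl : k ≠ l) :
    Disjoint (W C o k) (W C o l) := by
  by_cases h : C.v k = C.v (k + 1)
  · rw [W_of_eq h]; exact disjoint_bot_left
  by_cases h' : C.v l = C.v (l + 1)
  · rw [W_of_eq h']; exact disjoint_bot_right
  rw [W_of_ne h, W_of_ne h', Set.disjoint_left]
  intro z hz hz'
  obtain ⟨h1, h2, h3⟩ := pos_of_ne hC h o
  obtain ⟨h1', h2', h3'⟩ := pos_of_ne hC h' o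
  have e1 := cone_wedge h1 h2 h3 hz
  have e2 := cone_wedge h1' h2' h3' hz'
  simp only [add_sub_cancel_left] at e1 e2
  exact hC.wedge k l hkl (z - o) ⟨e1.1, e1.2, e2.1, e2.2⟩

theorem mid_comm (a b : ℂ) : mid a b = mid b a := by
  unfold mid; rw [add_comm]

theorem W_div {C : Cell} (hC : Good C) (o : ℂ) {φ : ℂ → ℂ} (hφ : ContDiff ℝ 1 φ) (k : Fin 6) :
    IntegrableOn (dvg φ) (W C o k) ∧
    ∫ z in W C o k, dvg φ z = fl φ (o + C.v k) (o + C.m k) (o + C.v (k + 1)) +
      (fl φ o (mid o (o + C.v k)) (o + C.v k) -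
        fl φ o (mid o (o + C.v (k + 1))) (o + C.v (k + 1))) := by
  by_cases h : C.v k = C.v (k + 1)
  · rw [W_of_eq h, m_of_eq hC h, ← h, fl_const]
    simp
  · rw [W_of_ne h]
    obtain ⟨h1, h2, h3⟩ := pos_of_ne hC h o
    obtain ⟨h4, h5⟩ := cone_div hφ h1 h2 h3
    refine ⟨h4, ?_⟩
    rw [h5, fl_symm φ o (mid (o + C.v (k + 1)) o) (o + C.v (k + 1)),
      mid_comm (o + C.v (k + 1)) o]
    ring

end Reg

open Reg

theorem region_measurable {C : Cell} (hC : Good C) (o : ℂ) : MeasurableSet (C.region o) := by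
  rw [region_eq]
  exact MeasurableSet.iUnion (fun k => W_measurable hC o k)

theorem region_volume {C : Cell} (hC : Good C) (o : ℂ) :
    volume (C.region o) = ENNReal.ofReal A0 := by
  rw [region_eq, measure_iUnion (fun k l hkl => W_disjoint hC o hkl)
    (fun k => W_measurable hC o k), tsum_fintype]
  simp only [W_volume hC]
  rw [← ENNReal.ofReal_sum_of_nonneg, hC.area]
  intro k _
  rcases hC.piece k with h | h
  · rw [m_of_eq hC h.1, ← h.1, cr_self]
    norm_num
  · have h1 := h.1
    have h2 := h.2.1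
    have h3 := h.2.2
    positivity

theorem region_div {C : Cell} (hC : Good C) (o : ℂ) {φ : ℂ → ℂ} (hφ : ContDiff ℝ 1 φ) :
    IntegrableOn (dvg φ) (C.region o) ∧
    ∫ z in C.region o, dvg φ z =
      ∑ k, fl φ (o + C.v k) (o + C.m k) (o + C.v (k + 1)) := by
  rw [region_eq]
  have hint : ∀ k, IntegrableOn (dvg φ) (W C o k) := fun k => (W_div hC o hφ k).1
  refine ⟨?_, ?_⟩
  · rw [integrableOn_finite_iUnion]
    exact hint
  · rw [integral_iUnion_fintype (fun k => W_measurable hC o k)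
      (fun k l hkl => W_disjoint hC o hkl) hint]
    rw [Finset.sum_congr rfl (fun k _ => (W_div hC o hφ k).2), Finset.sum_add_distrib,
      Finset.sum_sub_distrib]
    have h1 : ∑ k : Fin 6, fl φ o (mid o (o + C.v (k + 1))) (o + C.v (k + 1)) =
        ∑ k : Fin 6, fl φ o (mid o (o + C.v k)) (o + C.v k) :=
      Fintype.sum_equiv (Equiv.addRight (1 : Fin 6)) _ _ (fun k => rfl)
    rw [h1]
    ring

/-- a linear functional which is bounded on the control points is bounded on the region -/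
theorem region_lt {C : Cell} (f : ℂ →ₗ[ℝ] ℝ) {c : ℝ} (h0 : 0 < c)
    (h : ∀ l, f (C.v l) ≤ c ∧ f (C.m l) ≤ c) (o : ℂ) {z : ℂ} (hz : z ∈ C.region o) :
    f (z - o) < c := by
  rw [region_eq, mem_iUnion] at hz
  obtain ⟨k, hk⟩ := hz
  by_cases hv : C.v k = C.v (k + 1)
  · rw [W_of_eq hv] at hk
    exact absurd hk (Set.notMem_empty z)
  · rw [W_of_ne hv] at hk
    have h1 := cone_lt f (c := f o + c) (o := o) (a := o + C.v k) (m := o + C.m k)
      (b := o + C.v (k + 1)) (by linarith) (by rw [map_add]; linarith [(h k).1])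
      (by rw [map_add]; linarith [(h k).2]) (by rw [map_add]; linarith [(h (k + 1)).1]) hk
    rw [map_sub]
    linarith

/-- cross product as a linear functional -/
noncomputable def crL (a : ℂ) : ℂ →ₗ[ℝ] ℝ where
  toFun z := cr a z
  map_add' x y := by simp [cr]; ring
  map_smul' r x := by simp [cr]; ring

theorem region_half {C : Cell} (hC : Good C) (o : ℂ) {k : Fin 6} (hb : C.b k = 0)
    (hv : C.v k ≠ C.v (k + 1)) {z : ℂ} (hz : z ∈ C.region o) :
    0 < cr (C.v (k + 1) - C.v k) (z - (o + C.v k)) := by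
  have hpos : 0 < cr (C.v k) (C.v (k + 1)) := by
    rcases hC.piece k with h1 | h1
    · exact absurd h1.1 hv
    · exact h1.2.2
  have key := region_lt (C := C) (-(crL (C.v (k + 1) - C.v k))) (c := cr (C.v k) (C.v (k + 1)))
    hpos (fun l => by
      have h1 := hC.half k hb l
      constructor
      · have h2 := h1.1
        simp only [LinearMap.neg_apply, crL, LinearMap.coe_mk, AddHom.coe_mk]
        simp only [cr, Complex.sub_re, Complex.sub_im] at h2 ⊢
        linarith
      · have h2 := h1.2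
        simp only [LinearMap.neg_apply, crL, LinearMap.coe_mk, AddHom.coe_mk]
        simp only [cr, Complex.sub_re, Complex.sub_im] at h2 ⊢
        linarith) o hz
  simp only [LinearMap.neg_apply, crL, LinearMap.coe_mk, AddHom.coe_mk] at key
  simp only [cr, Complex.sub_re, Complex.sub_im, Complex.add_re, Complex.add_im] at key ⊢
  linarith

/-- the functionals `fn3` are linear -/
noncomputable def fnL (j : Fin 3) : ℂ →ₗ[ℝ] ℝ where
  toFun z := fn3 j z
  map_add' x y := by fin_cases j <;> simp [fn3] <;> ring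
  map_smul' r x := by fin_cases j <;> simp [fn3] <;> ring

theorem region_norm {C : Cell} (hC : Good C) (o : ℂ) (j : Fin 3) {z : ℂ}
    (hz : z ∈ C.region o) : |fn3 j (z - o)| < 3 * Real.sqrt 3 / 4 := by
  have h0 : (0 : ℝ) < 3 * Real.sqrt 3 / 4 := by positivity
  rw [abs_lt]
  constructor
  · have := region_lt (C := C) (-(fnL j)) h0 (fun l => by
      have h1 := hC.norm l j
      rw [abs_lt, abs_lt] at h1
      simp only [LinearMap.neg_apply, fnL, LinearMap.coe_mk, AddHom.coe_mk]
      constructor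
      · linarith [h1.1.1]
      · linarith [h1.2.1]) o hz
    simp only [LinearMap.neg_apply, fnL, LinearMap.coe_mk, AddHom.coe_mk] at this
    linarith
  · have := region_lt (C := C) (fnL j) h0 (fun l => by
      have h1 := hC.norm l j
      rw [abs_lt, abs_lt] at h1
      simp only [fnL, LinearMap.coe_mk, AddHom.coe_mk]
      exact ⟨h1.1.2.le, h1.2.2.le⟩) o hz
    simpa only [fnL, LinearMap.coe_mk, AddHom.coe_mk] using this

end Pool.Agent.Helper79.HC
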