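import Pool.Agent.Helper79.HC.Defs

/-!
# The asymptotic bound, from the bound for single numbers and the count
-/

namespace Pool.Agent.Helper79.HC

open MeasureTheory Set

theorem eventually_of
    (hp : ∀ (A D : ℤ), 10 ≤ D → 4 * D ≤ A → ∀ (s M : ℕ), 0 < s → M ≤ s ^ 2 →
      p ((bigK A D).card + M) ≤ ENNReal.ofReal (3 * ((bigK A D).card + M) +
        6 * (A - 2 * D - 5) * 0.90705 + 6 * D * (13.6993 - 12) + 10000 + 100 * s))
    (hc : ∀ (A D : ℤ), 10 ≤ D → 4 * D ≤ A →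
      3 * A ^ 2 + 3 * A + 1 - 3 * (D - 2) * (D - 1) - 1000 ≤ ((bigK A D).card : ℤ) ∧
      ((bigK A D).card : ℤ) ≤ 3 * A ^ 2 + 3 * A + 1 - 3 * (D - 2) * (D - 1)) :
    ∀ᶠ N : ℕ in Filter.atTop, p N ≤ ENNReal.ofReal (3 * N + 3.117 * Real.sqrt N) := by
  rw [Filter.eventually_atTop]
  refine ⟨189 * (10 ^ 14) ^ 2, fun N hN => ?_⟩
  -- choice of `n`
  obtain ⟨n, hn1, hn2⟩ : ∃ n : ℕ, 189 * (n + 1) ^ 2 ≤ N ∧ N < 189 * (n + 2) ^ 2 := by
    refine ⟨Nat.sqrt (N / 189) - 1, ?_, ?_⟩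
    · have h1 : Nat.sqrt (N / 189) * Nat.sqrt (N / 189) ≤ N / 189 := Nat.sqrt_le _
      have h2 : 1 ≤ Nat.sqrt (N / 189) := by
        rw [Nat.le_sqrt]
        omega
      have h3 : Nat.sqrt (N / 189) - 1 + 1 = Nat.sqrt (N / 189) := by omega
      rw [h3]
      have h4 : 189 * (N / 189) ≤ N := Nat.mul_div_le N 189
      nlinarith
    · have h1 : N / 189 < (Nat.sqrt (N / 189)).succ * (Nat.sqrt (N / 189)).succ :=
        Nat.lt_succ_sqrt _
      have h2 : 1 ≤ Nat.sqrt (N / 189) := by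
        rw [Nat.le_sqrt]
        omega
      have h3 : Nat.sqrt (N / 189) - 1 + 2 = Nat.sqrt (N / 189) + 1 := by omega
      rw [h3]
      have h4 : N < 189 * (N / 189 + 1) := by omega
      have h5 : N / 189 + 1 ≤ (Nat.sqrt (N / 189) + 1) * (Nat.sqrt (N / 189) + 1) := by
        simpa [Nat.succ_eq_add_one] using h1
      calc N < 189 * (N / 189 + 1) := h4
        _ ≤ 189 * ((Nat.sqrt (N / 189) + 1) * (Nat.sqrt (N / 189) + 1)) :=
            Nat.mul_le_mul_left _ h5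
        _ = 189 * (Nat.sqrt (N / 189) + 1) ^ 2 := by ring
  have hnbig : 10 ^ 13 ≤ n := by
    by_contra hlt
    push Not at hlt
    have : (n + 2) ^ 2 ≤ (10 ^ 14) ^ 2 := by
      apply Nat.pow_le_pow_left
      omega
    omega
  obtain ⟨hc1, hc2⟩ := hc (8 * n) n (by omega) (by omega)
  set K := (bigK (8 * (n : ℤ)) n).card with hK
  have hKN : K ≤ N := by
    zify
    have : (189 : ℤ) * ((n : ℤ) + 1) ^ 2 ≤ N := by exact_mod_cast hn1
    nlinarith
  obtain ⟨M, hM⟩ := Nat.exists_eq_add_of_le hKN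
  have hMle : (M : ℤ) ≤ 723 * n + 1761 := by
    have h1 : (N : ℤ) < 189 * ((n : ℤ) + 2) ^ 2 := by exact_mod_cast hn2
    have h2 : (N : ℤ) = K + M := by exact_mod_cast hM
    nlinarith
  have hs : M ≤ (Nat.sqrt M + 1) ^ 2 := by
    have := Nat.lt_succ_sqrt M
    rw [Nat.succ_eq_add_one] at this
    nlinarith
  have hmain := hp (8 * n) n (by omega) (by omega) (Nat.sqrt M + 1) M (Nat.succ_pos _) hs
  rw [← hK, ← hM] at hmain
  refine hmain.trans (ENNReal.ofReal_le_ofReal ?_)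
  have hNr : (N : ℝ) = K + M := by exact_mod_cast hM
  rw [← hNr]
  have hMr : (M : ℝ) ≤ 723 * n + 1761 := by exact_mod_cast hMle
  have hsM : ((Nat.sqrt M : ℕ) : ℝ) ≤ 1e-8 * (M : ℝ) + 25000000 := by
    have h1 : ((Nat.sqrt M : ℕ) : ℝ) ^ 2 ≤ M := by
      have := Nat.sqrt_le' M
      exact_mod_cast this
    nlinarith [sq_nonneg ((2e-8 : ℝ) * (Nat.sqrt M : ℕ) - 1)]
  have hsqrt : (13.7477 : ℝ) * (n + 1) ≤ Real.sqrt N := by
    apply Real.le_sqrt_of_sq_le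
    have h1 : (189 : ℝ) * ((n : ℝ) + 1) ^ 2 ≤ N := by exact_mod_cast hn1
    nlinarith [sq_nonneg ((n : ℝ) + 1)]
  have hnr : (10 : ℝ) ^ 13 ≤ n := by exact_mod_cast hnbig
  push_cast
  nlinarith

theorem limsup_of
    (h : ∀ᶠ N : ℕ in Filter.atTop, p N ≤ ENNReal.ofReal (3 * N + 3.117 * Real.sqrt N)) :
    Filter.limsup (fun N : ℕ => ((((p N).toReal - 3 * N) / Real.sqrt N : ℝ) : EReal))
      Filter.atTop ≤ ((3.117 : ℝ) : EReal) := by
  apply Filter.limsup_le_of_le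
  · exact Filter.isCobounded_le_of_bot
  filter_upwards [h, Filter.eventually_ge_atTop 1] with N hN h1
  rw [EReal.coe_le_coe_iff]
  have hpos : 0 < Real.sqrt N := Real.sqrt_pos.2 (by exact_mod_cast h1)
  rw [div_le_iff₀ hpos]
  have h2 : (p N).toReal ≤ 3 * N + 3.117 * Real.sqrt N := by
    refine ENNReal.toReal_le_of_le_ofReal ?_ hN
    positivity
  linarith

end Pool.Agent.Helper79.HC
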